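import Pool.Agent.Results.MP_a79b85_nt.AlmostAllK
import Pool.Agent.Run7.h823.SG.Lin
import Pool.Agent.Run7.h823.WF.PN
import Pool.Agent.Run7.h823.WF.Ex

/-!
# Extensions of `{1, 2 k ^ 2, 2 k ^ 2 + 2 k + 1}`: `k` in sparse families of residues

The question is whether the `D(-k²)`-triple `T_k = {1, 2 k², 2 k² + 2 k + 1}` can be extended to a quadruple, `k ≥ 1`. The
starting result shows that this is not possible for almost all `k`. Such a statement says nothing about sparse sets of `k`. Here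
`k` is near the value of a linear form at members of very sparse FINITE sets of integers which are defined modulo a large
integer, such as the first `m ^ ε` terms of a linear recurrence modulo a prime `m`.

Let `y_i`, `i ∈ s`, be a finite family of vectors of residues modulo an integer `q` with small Fourier coefficients: for all
`h ≠ 0` modulo `q` we have `|∑ e(h·y_i / q)| ≤ δ (log q) ^ (-r) |s|`, where `r` is the number of the coordinates. We consider
the integers `k` near `ℓ(c₀ + y_i)` (least residues), for linear forms `ℓ ≠ 0` with integral coefficients and any integral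
vector `c₀`.

**Theorem.** For all `r`, `B` and `ε > 0` there is `δ > 0` such that for all `q ≥ 1 / δ`, ALL such families
and ALL `c₀` the following holds for all but `ε |s|` of the `i`, SIMULTANEOUSLY for ALL linear forms `ℓ ≠ 0` with
coefficients at most `B` in absolute value and ALL integers `1 ≤ k` with `|k - ℓ(c₀ + y_i)| ≤ B`: no `d` extends
`T_k`.

The family can be very sparse: examples (of vectors with `r` coordinates) are

* the values `(u_1(n), …, u_r(n))`, `n < N`, of `r` linear recurrences modulo a prime `m` with linearly independent vectors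
  of coefficients, as soon as `N ≥ m ^ ε` and the roots and their quotients have orders `≥ m ^ ε`;
* the vectors `(x_1 b_1 ^ n, …, x_r b_r ^ n)`, `n < N`, `N ≥ m ^ ε`, for fixed different integers `b_j ≥ 2` and
  all `x_j ≠ 0`, modulo all but `C X ^ ε` of the primes `m ≤ X`.

In these examples only `m ^ ε` of the `m ^ r` vectors of the box occur.

From Mathlib: `ZMod.stdAddChar`: the additive character `j ↦ exp (2 π i j / q)` of the integers modulo `q`; `ZMod.val`: the
least residue.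

The proof: if `T_k` has an extension, then `2 k + 1` has no prime factor `p ≡ 5` modulo `12` (starting file). By Dirichlet's theorem the vectors `c` such that some integer near `ℓ(c)` is an
exception form a pronull set (`Pool.Agent.Run7.h823.SG.windows`); families with small Fourier coefficients rarely meet
pronull sets, since they are equidistributed modulo every fixed integer (`Pool.Agent.Run7.h823.WF.PN`); the Fourier
coefficients of short recurrences are estimated by the method of Bourgain, Glibichuk and Konyagin (`Pool.Agent.Run7.h823.BK`).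
-/

set_option autoImplicit false

namespace Pool.Agent.Results.MP_a79b85_nt.ResidueVectors

open Finset (range)

/-- The Fourier coefficients of the vectors of residues `y i`, `i ∈ s`, modulo `q` at the nonzero frequencies are at most
`η` times the number of the vectors: `|∑ i ∈ s, e(h·y_i / q)| ≤ η |s|` for all vectors `h ≠ 0` modulo `q`. -/
def Flat {τ ι : Type} [Fintype ι] (q : ℕ) [NeZero q] (η : ℝ) (s : Finset τ) (y : τ → ι → ZMod q) : Prop :=
  ∀ h : ι → ZMod q, h ≠ 0 → ‖∑ i ∈ s, (ZMod.stdAddChar (∑ j, h j * y i j) : ℂ)‖ ≤ η * s.card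

/-- The integral vector `c₀ + y_i`, with the least residues `0 ≤ y_i < q`. -/
def vec {τ ι : Type} {q : ℕ} (y : τ → ι → ZMod q) (c₀ : ι → ℤ) (i : τ) (j : ι) : ℤ := c₀ j + ((y i j).val : ℕ)

/-- `d` extends `T_k` to a `D(-k²)`-quadruple -/
def Extends (k d : ℤ) : Prop :=
  0 < d ∧ d ≠ 1 ∧ d ≠ 2 * k ^ 2 ∧ d ≠ 2 * k ^ 2 + 2 * k + 1 ∧ IsSquare (d - k ^ 2) ∧
    IsSquare (2 * k ^ 2 * d - k ^ 2) ∧ IsSquare ((2 * k ^ 2 + 2 * k + 1) * d - k ^ 2)

/-- For all `k ≥ 1` near the values of all small linear forms at the integral vector `c` the triple `T_k` has no extension: for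
all linear forms `ℓ ≠ 0` with coefficients `|lam_j| ≤ B` and all `k ≥ 1` with `|k - ℓ(c)| ≤ B` no `d` extends `T_k`. -/
def NoExtensionNear {r : ℕ} (B : ℕ) (c : Fin r → ℤ) : Prop :=
  ∀ lam : Fin r → ℤ, lam ≠ 0 → (∀ j, |lam j| ≤ B) →
    ∀ k : ℕ, 1 ≤ k → |(k : ℤ) - ∑ j, lam j * c j| ≤ B → ¬ ∃ d : ℤ, Extends k d

theorem thin : Pool.Agent.Run7.h823.SG.Thin (fun x => ∃ k : ℕ, 1 ≤ k ∧ (k : ℤ) = x ∧ ∃ d : ℤ, Extends k d) := by
  have hu : IsUnit (5 : ZMod 12) := by decide
  refine Pool.Agent.Run7.h823.SG.crit0 _ (fun q => (q : ZMod 12) = 5) (fun q => (q - 1) / 2)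
    (Pool.Agent.H771R2.Dens.big_ap hu) ?_
  rintro x ⟨k, hk, rfl, hd⟩ q hq hq12 hkq
  have h1 : q % 12 = 5 := by
    have h2 : ((q : ℕ) : ZMod 12) = ((5 : ℕ) : ZMod 12) := by simpa using hq12
    rw [ZMod.natCast_eq_natCast_iff'] at h2
    omega
  refine Pool.Agent.Results.MP_a79b85_nt.AlmostAllK.result.2.1 k hk (Or.inr ⟨q, hq, ?_, Or.inl h1⟩) hd
  have h3 : ((k : ℕ) : ZMod q) = (((q - 1) / 2 : ℕ) : ZMod q) := by simpa using hkq
  rw [← ZMod.natCast_eq_zero_iff]
  push_cast
  rw [h3]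
  have h4 : 2 * ((q - 1) / 2) + 1 = q := by omega
  have h5 : ((2 * ((q - 1) / 2) + 1 : ℕ) : ZMod q) = ((q : ℕ) : ZMod q) := by rw [h4]
  rw [ZMod.natCast_self] at h5
  push_cast at h5
  exact h5

open Pool.Agent.N24.RW (ProNull) in
theorem null (r B : ℕ) : ProNull {c : Fin r → ℤ | ¬ NoExtensionNear B c} := by
  refine Pool.Agent.N24.RW.Clo.mono ?_ (Pool.Agent.Run7.h823.SG.windows thin r B)
  intro c hc
  by_contra hcon
  apply hc
  intro lam hl hlB k hn hnf
  intro hd
  exact hcon ⟨lam, hl, hlB, k, hnf, k, hn, rfl, hd⟩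

/-- **Theorem.** (1) For all `r`, `B` and `ε > 0` there is `δ > 0` such that for all `q ≥ 1 / δ`, all families of vectors of
residues modulo `q` with Fourier coefficients at most `δ (log q) ^ (-r) |s|` at the nonzero frequencies and all integral
vectors `c₀` all but `ε |s|` of the members `c₀ + y_i` have the property `NoExtensionNear B`.

(2) Examples: short linear recurrences. (3) Examples: the first powers of fixed integers, modulo all but `C X ^ ε` of the
primes `m ≤ X`. (The Fourier coefficients are even at most `m ^ (-β) N`.) -/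
theorem result :
    (∀ (r B : ℕ) (ε : ℝ), 0 < ε → ∃ δ : ℝ, 0 < δ ∧ ∀ (q : ℕ) [NeZero q], 1 / δ ≤ q →
      ∀ (τ : Type) (s : Finset τ) (y : τ → Fin r → ZMod q), Flat q (δ / Real.log q ^ r) s y →
      ∀ c₀ : Fin r → ℤ, ({i : τ | i ∈ s ∧ ¬ NoExtensionNear B (vec y c₀ i)}.ncard : ℝ) ≤ ε * s.card) ∧
    (∀ (k : ℕ) (ε : ℝ), 0 < ε → ∃ β : ℝ, 0 < β ∧ ∃ m₀ : ℕ, ∀ (m : ℕ) [Fact m.Prime], m₀ ≤ m →
      ∀ (ι : Type) [Fintype ι] (c : ι → Fin k → ZMod m) (g : Fin k → (ZMod m)ˣ) (N : ℕ), LinearIndependent (ZMod m) c →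
      (∀ i, (m : ℝ) ^ ε ≤ orderOf (g i)) → (∀ i j, i ≠ j → (m : ℝ) ^ ε ≤ orderOf (g i / g j)) → (m : ℝ) ^ ε ≤ N →
      Flat m ((m : ℝ) ^ (-β)) (range N) (fun n j => ∑ i, c j i * (g i : ZMod m) ^ n)) ∧
    (∀ (ι : Type) [Fintype ι] (ε : ℝ), 0 < ε → ∃ β : ℝ, 0 < β ∧ ∀ b : ι → ℕ, (∀ j, 2 ≤ b j) → Function.Injective b →
      ∃ C : ℝ, ∀ X : ℕ, 1 ≤ X → ∀ Q : Finset ℕ,
      (∀ m ∈ Q, m ≤ X ∧ ∃ _ : Fact m.Prime, ¬ ∀ N : ℕ, (m : ℝ) ^ ε ≤ N → ∀ x : ι → ZMod m, (∀ j, x j ≠ 0) →
        Flat m ((m : ℝ) ^ (-β)) (range N) (fun n j => x j * (b j : ZMod m) ^ n)) →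
      (Q.card : ℝ) ≤ C * (X : ℝ) ^ ε) := by
  refine ⟨?_, fun k ε hε => Pool.Agent.Run7.h823.WF.flat_rec' k hε,
    fun ι _ ε hε => Pool.Agent.Run7.h823.WF.flat_pow' ι hε⟩
  intro r B ε hε
  obtain ⟨δ, hδ, h⟩ := Pool.Agent.Run7.h823.WF.PN.rare _ (null r B) hε
  refine ⟨δ, hδ, fun q _ hq τ s y hf c₀ => h τ q hq s y ?_ c₀⟩
  rw [Fintype.card_fin]
  exact hf

end Pool.Agent.Results.MP_a79b85_nt.ResidueVectors
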